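import Pool.Agent.Work.MP_10f4af_ag.K6

open Pool.Agent.Work.MP_10f4af_ag
open Pool.Agent.Work.MP_ffcd14_ag (Amb)

universe u v w

namespace Pool.Agent.Results.MP_10f4af_ag.Characterisation

/-- Five equivalent forms of the independence of the filtration, for a class of varieties
stable under squares. -/
theorem result {k : Type u} [Field k] [IsAlgClosed k] {K : Type v} [Field K] [CharZero K]
    (W : Weil.{u, v, w} k K) (C : ∀ P : Amb, SV k P → Prop)
    (hC : ∀ (P : Amb) (X : SV k P), C P X → C (P.sum P) (X.prod X)) :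
    List.TFAE [∀ (P : Amb) (X : SV k P), C P X → ∀ i m, Indep W X (Fil X i m),
      ∀ (P : Amb) (X : SV k P), C P X → Indep W (X.prod X) (Fil (X.prod X) X.dim 0),
      ∀ (P : Amb) (X : SV k P), C P X → ∀ π, IsCK W X π → ∀ (i : ℕ) (j : Fin (2 * X.dim + 1)),
        2 * i < j.val → ∀ z ∈ CH X i, act X (π j) z = 0,
      ∀ (P : Amb) (X : SV k P), C P X → ∀ π π', IsCK W X π → IsCK W X π' → ∀ i m : ℕ,
        Ker X i m π = Fil X i m π',
      ∀ (P : Amb) (X : SV k P), C P X → (∃ π, IsCK W X π) →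
        (∃ π, IsCK W X π ∧ ∀ a b, b < a → ∀ γ ∈ CH (X.prod X) X.dim,
          comp X (π a) (comp X γ (π b)) = 0) ∧
        ∀ p ∈ CH (X.prod X) X.dim, comp X p p = p → (∀ x, W.act X p x = 0) → p = 0] :=
  H5 W C hC

end Pool.Agent.Results.MP_10f4af_ag.Characterisation
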