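import Pool.Agent.Work.MP_10f4af_ag.FA.E1

open Pool.Agent.Work.MP_10f4af_ag
open Pool.Agent.Work.MP_ffcd14_ag (Amb)

universe u

namespace Pool.Agent.Results.MP_10f4af_ag.HypNilpotence

/-- On a very general hypersurface `X` of degree at least three in projective space, numerically
trivial correspondences of degree zero are nilpotent. -/
theorem result {k : Type u} [Field k] [IsAlgClosed k] {P : Amb}
    (hP : Nat.card P.ι = 1) (Y X : SV k P) (hY : Y.pts = Set.univ) (f : MvPolynomial P.V k)
    (a : P.ι →₀ ℕ) (h : Sec Y X f a)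
    (hf : AlgebraicIndependent (⊥ : Subfield k) fun m : Mon a => MvPolynomial.coeff m.1 f)
    (he : ∀ i, 3 ≤ a i) (γ : Cl (X.prod X)) (hγ : Num X γ) :
    ∃ n, (comp X γ)^[n] γ = 0 :=
  HNA hP hY h hf he hγ

end Pool.Agent.Results.MP_10f4af_ag.HypNilpotence
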