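import Pool.Agent.Work.MP_10f4af_ag.MC.B2

open Pool.Agent.Work.MP_10f4af_ag
open Pool.Agent.Work.MP_ffcd14_ag (Amb)

universe u v w

namespace Pool.Agent.Results.MP_10f4af_ag.Hypersurface

/-- Let `X` be a very general hypersurface of degree at least three in projective space, of any
dimension at least two.  For every finite set `t` of degrees, the image of `CH ^ i` under the sum
of the projectors of degree in `t` is independent of the decomposition, except when `1 < i`,
`dim X ∉ t` and `2 i ∈ t`; in that case it is independent if and only if the cycle class map is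
injective in codimension `i`. -/
theorem result {k : Type u} [Field k] [IsAlgClosed k] {K : Type v} [Field K]
    [CharZero K] (W : Weil.{u, v, w} k K) (hW : W.Lef) {P : Amb} (hP : Nat.card P.ι = 1)
    (Y X : SV k P) (hY : Y.pts = Set.univ) (f : MvPolynomial P.V k) (a : P.ι →₀ ℕ)
    (h : Sec Y X f a)
    (hf : AlgebraicIndependent (⊥ : Subfield k) fun m : Mon a => MvPolynomial.coeff m.1 f)
    (he : ∀ i, 3 ≤ a i) (hd : 1 < X.dim) (i : ℕ) (t : Finset ℕ) :
    Indep W X (fun π => act X (∑ j : Fin (2 * X.dim + 1) with j.val ∈ t, π j) '' CH X i) ↔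
      (1 < i → X.dim ∉ t → 2 * i ∈ t → Set.InjOn (W.cl X) (CH X i)) :=
  hyp_img hP hY h hf he hW hd i t

end Pool.Agent.Results.MP_10f4af_ag.Hypersurface
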