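import Pool.Agent.Work.MP_10f4af_ag.MC.M

open Pool.Agent.Work.MP_10f4af_ag
open Pool.Agent.Work.MP_ffcd14_ag (Amb)

universe u v w

namespace Pool.Agent.Results.MP_10f4af_ag.InVariety

/-- Let `X` be a very general member of a linear system on a smooth projective variety `Y` whose
homologically trivial correspondences are nilpotent.  Let the cohomology of `X` be algebraic
outside the middle degree, and not generated by algebraic classes and classes coming from `Y`.
For every finite set `t` of degrees, the image of `CH ^ i` under the sum of the projectors of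
degree in `t` is independent of the decomposition, except when `0 < i`, `dim X ∉ t` and `2 i ∈ t`;
in that case it is independent if and only if the cycle class map is injective in codimension
`i`. -/
theorem result {k : Type u} [Field k] [IsAlgClosed k] {K : Type v} [Field K] [CharZero K]
    (W : Weil.{u, v, w} k K) {P : Amb} (Y X : SV k P) (h : VGin Y X)
    (hN : ∀ γ ∈ CH (Y.prod Y) Y.dim, (∀ y, W.act Y γ y = 0) → ∃ n, (comp Y γ)^[n] γ = 0)
    (hA : ∀ j ≠ X.dim, ∀ x, W.dg X j x → x ∈ W.Alg X)
    (hr : ∃ x, ∀ y, x - W.res Y X y ∉ W.Alg X) (i : ℕ) (t : Finset ℕ) :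
    Indep W X (fun π => act X (∑ j : Fin (2 * X.dim + 1) with j.val ∈ t, π j) '' CH X i) ↔
      (0 < i → X.dim ∉ t → 2 * i ∈ t → Set.InjOn (W.cl X) (CH X i)) :=
  h.main hN hA hr i t

end Pool.Agent.Results.MP_10f4af_ag.InVariety
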